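import Pool.Agent.Helper35.PI.St2

/-!
Project PI (MP_b2fa09_gt), module SM: smooth dependence of the geometric quantities on
space and time.
-/

set_option autoImplicit false

namespace Helper48.PI

open Helper35.PI
open scoped ContDiff Topology
open MeasureTheory Set Filter

section

variable {n N : ℕ} {V : Type*} [NormedAddCommGroup V] [NormedSpace ℝ V]

/-- spatial derivative of a slice -/
theorem slice_fderiv (φ : EE n × ℝ → V) (z : EE n × ℝ) (h : DifferentiableAt ℝ φ z)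
    (i : Fin n) : fderiv ℝ (fun y => φ (y, z.2)) z.1 (ee i) = jg φ z i := by
  have h1 : HasFDerivAt (fun y : EE n => (y, z.2)) (ContinuousLinearMap.inl ℝ (EE n) ℝ) z.1 :=
    hasFDerivAt_prodMk_left z.1 z.2
  have h2 : HasFDerivAt φ (fderiv ℝ φ z) ((fun y : EE n => (y, z.2)) z.1) := h.hasFDerivAt
  have h3 : HasFDerivAt (fun y : EE n => φ (y, z.2))
      ((fderiv ℝ φ z).comp (ContinuousLinearMap.inl ℝ (EE n) ℝ)) z.1 := h2.comp z.1 h1
  rw [h3.fderiv]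
  simp [jg]

theorem inf_succ : (∞ : ℕ∞ω) + 1 ≤ ∞ := by
  exact le_of_eq rfl

theorem five_le : (5 : ℕ∞ω) ≤ ∞ := by
  exact WithTop.coe_le_coe.2 (le_top : (5 : ℕ∞) ≤ ⊤)

theorem jg_smooth (φ : EE n × ℝ → V) (z : EE n × ℝ) (h : ContDiffAt ℝ ∞ φ z) (i : Fin n) :
    ContDiffAt ℝ ∞ (fun z => jg φ z i) z := by
  have h1 : ContDiffAt ℝ ∞ (fderiv ℝ φ) z := h.fderiv_right inf_succ
  exact h1.clm_apply contDiffAt_const

theorem jt_smooth (φ : EE n × ℝ → V) (z : EE n × ℝ) (h : ContDiffAt ℝ ∞ φ z) :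
    ContDiffAt ℝ ∞ (jt φ) z := by
  have h1 : ContDiffAt ℝ ∞ (fderiv ℝ φ) z := h.fderiv_right inf_succ
  exact h1.clm_apply contDiffAt_const

/-- the determinant of a smooth matrix is smooth -/
theorem det_smooth {X : Type*} [NormedAddCommGroup X] [NormedSpace ℝ X]
    (M : X → Matrix (Fin n) (Fin n) ℝ) (z : X)
    (h : ∀ i j, ContDiffAt ℝ ∞ (fun z => M z i j) z) :
    ContDiffAt ℝ ∞ (fun z => (M z).det) z := by
  simp only [Matrix.det_apply]
  refine ContDiffAt.sum fun σ _ => ?_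
  refine ContDiffAt.const_smul _ ?_
  exact contDiffAt_prod fun i _ => h _ _

theorem inv_smooth {X : Type*} [NormedAddCommGroup X] [NormedSpace ℝ X]
    (M : X → Matrix (Fin n) (Fin n) ℝ) (z : X)
    (h : ∀ i j, ContDiffAt ℝ ∞ (fun z => M z i j) z) (hd : (M z).det ≠ 0) (i j : Fin n) :
    ContDiffAt ℝ ∞ (fun z => (M z)⁻¹ i j) z := by
  have e : (fun z => (M z)⁻¹ i j) =
      fun z => ((M z).det)⁻¹ * ((M z).updateRow j (Pi.single i 1)).det := by
    funext w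
    rw [Matrix.inv_def, Matrix.smul_apply, Ring.inverse_eq_inv', Matrix.adjugate_apply,
      smul_eq_mul]
  rw [e]
  refine ((det_smooth M z h).inv hd).mul (det_smooth _ z fun a b => ?_)
  by_cases hab : a = j
  · have : (fun z => (M z).updateRow j (Pi.single i 1) a b) =
        fun _ => (Pi.single i (1 : ℝ) : Fin n → ℝ) b := by
      funext w
      rw [hab, Matrix.updateRow_self]
    rw [this]
    exact contDiffAt_const
  · have : (fun z => (M z).updateRow j (Pi.single i 1) a b) = fun z => M z a b := by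
      funext w
      rw [Matrix.updateRow_ne hab]
    rw [this]
    exact h a b

theorem gram_eq (f : EE n → EE N) (x : EE n) :
    gram f x = Matrix.gram ℝ (fun i => dv1 f x i) := rfl

theorem li_iff (f : EE n → EE N) (x : EE n) : LI f x ↔ (gram f x).det ≠ 0 := by
  rw [gram_eq, Matrix.det_gram_ne_zero_iff_linearIndependent]
  rfl

theorem jgg_symm (φ : EE n × ℝ → V) (z : EE n × ℝ) (h : ContDiffAt ℝ 5 φ z) (i j : Fin n) :
    jgg φ z i j = jgg φ z j i := by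
  have h2 : ContDiffAt ℝ 1 (fderiv ℝ φ) z := h.fderiv_right (by norm_num)
  have hd : DifferentiableAt ℝ (fderiv ℝ φ) z := h2.differentiableAt (by norm_num)
  have key : ∀ a b : Fin n, jgg φ z a b = (fderiv ℝ (fderiv ℝ φ) z (ee a, 0)) (ee b, 0) := by
    intro a b
    have e : HasFDerivAt (fun z' => fderiv ℝ φ z' (ee b, (0 : ℝ)))
        ((fderiv ℝ (fderiv ℝ φ) z).flip (ee b, 0)) z := by
      have := hd.hasFDerivAt.clm_apply (hasFDerivAt_const (ee b, (0 : ℝ)) z)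
      simpa using this
    simp only [jgg, jg]
    rw [e.fderiv]
    rfl
  have hs : IsSymmSndFDerivAt ℝ φ z := h.isSymmSndFDerivAt (by simp; norm_num)
  rw [key, key]
  exact hs _ _

end


/-- the first derivative of the slice -/
theorem dv1_eq {n N : ℕ} (f : EE n × ℝ → EE N) (z : EE n × ℝ) (hz : ContDiffAt ℝ 5 f z)
    (i : Fin n) : dv1 (fun y => f (y, z.2)) z.1 i = jg f z i :=
  slice_fderiv f z (hz.differentiableAt (by norm_num)) i

/-- the second derivative of the slice -/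
theorem dv2_eq {n N : ℕ} (f : EE n × ℝ → EE N) (z : EE n × ℝ)
    (hz : ∀ᶠ w in 𝓝 z, ContDiffAt ℝ 5 f w) (i j : Fin n) :
    dv2 (fun y => f (y, z.2)) z.1 i j = jgg f z i j := by
  have hz5 : ContDiffAt ℝ 5 f z := hz.self_of_nhds
  have hc : Tendsto (fun y : EE n => (y, z.2)) (𝓝 z.1) (𝓝 z) := by
    have : Continuous (fun y : EE n => (y, z.2)) := by fun_prop
    exact this.tendsto z.1
  have e1 : (fun y => fderiv ℝ (fun y' => f (y', z.2)) y (ee j)) =ᶠ[𝓝 z.1]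
      fun y => jg f (y, z.2) j := by
    filter_upwards [hc.eventually hz] with y hy
    exact dv1_eq f (y, z.2) hy j
  have h2 : ContDiffAt ℝ 1 (fderiv ℝ f) z := hz5.fderiv_right (by norm_num)
  have h3 : ContDiffAt ℝ 1 (fun z' => jg f z' j) z := h2.clm_apply contDiffAt_const
  have e2 : DifferentiableAt ℝ (fun z' => jg f z' j) z := h3.differentiableAt (by norm_num)
  have e3 := slice_fderiv (fun z' => jg f z' j) z e2 i
  unfold dv2
  rw [e1.fderiv_eq]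
  exact e3

theorem sff_smooth {n N : ℕ} (f : EE n × ℝ → EE N) (z₀ : EE n × ℝ)
    (h5 : ∀ᶠ z in 𝓝 z₀, ContDiffAt ℝ 5 f z)
    (hjg : ∀ i, ContDiffAt ℝ ∞ (fun z => jg f z i) z₀)
    (hjgg : ∀ i j, ContDiffAt ℝ ∞ (fun z => jgg f z i j) z₀)
    (hgi : ∀ i j, ContDiffAt ℝ ∞ (fun z => (gram (fun y => f (y, z.2)) z.1)⁻¹ i j) z₀)
    (i j : Fin n) :
    ContDiffAt ℝ ∞ (fun z => sff (fun y => f (y, z.2)) z.1 i j) z₀ := by
  have e : (fun z => sff (fun y => f (y, z.2)) z.1 i j) =ᶠ[𝓝 z₀] fun z =>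
      jgg f z i j - ∑ k, ∑ l, ((gram (fun y => f (y, z.2)) z.1)⁻¹ k l *
        inner ℝ (jgg f z i j) (jg f z k)) • jg f z l := by
    filter_upwards [h5, h5.eventually_nhds] with z hz hz2
    unfold sff nrm
    rw [dv2_eq f z hz2 i j]
    simp only [dv1_eq f z hz]
  refine ContDiffAt.congr_of_eventuallyEq ?_ e
  refine (hjgg i j).sub (ContDiffAt.sum fun k _ => ContDiffAt.sum fun l _ => ?_)
  exact ((hgi k l).mul ((hjgg i j).inner ℝ (hjg k))).smul (hjg l)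

theorem quad_smooth {n : ℕ} {X : Type*} [NormedAddCommGroup X] [NormedSpace ℝ X]
    (F : Fin n → Fin n → Fin n → Fin n → X → ℝ) (z : X)
    (h : ∀ i j k l, ContDiffAt ℝ ∞ (F i j k l) z) :
    ContDiffAt ℝ ∞ (fun z => ∑ i, ∑ j, ∑ k, ∑ l, F i j k l z) z :=
  ContDiffAt.sum fun i _ => ContDiffAt.sum fun j _ => ContDiffAt.sum fun k _ =>
    ContDiffAt.sum fun l _ => h i j k l



theorem mcv_smooth {n N : ℕ} (f : EE n × ℝ → EE N) (z₀ : EE n × ℝ)
    (hgi : ∀ i j, ContDiffAt ℝ ∞ (fun z => (gram (fun y => f (y, z.2)) z.1)⁻¹ i j) z₀)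
    (hsf : ∀ i j, ContDiffAt ℝ ∞ (fun z => sff (fun y => f (y, z.2)) z.1 i j) z₀) :
    ContDiffAt ℝ ∞ (fun z => mcv (fun y => f (y, z.2)) z.1) z₀ := by
  unfold mcv
  refine ContDiffAt.sum fun i _ => ContDiffAt.sum fun j _ => ?_
  exact (hgi i j).smul (hsf i j)


theorem nsq_smooth {n N : ℕ} (f : EE n × ℝ → EE N) (z₀ : EE n × ℝ)
    (hgi : ∀ i j, ContDiffAt ℝ ∞ (fun z => (gram (fun y => f (y, z.2)) z.1)⁻¹ i j) z₀)
    (hsf : ∀ i j, ContDiffAt ℝ ∞ (fun z => sff (fun y => f (y, z.2)) z.1 i j) z₀) :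
    ContDiffAt ℝ ∞ (fun z => nsq (fun y => f (y, z.2)) z.1) z₀ := by
  unfold nsq
  refine quad_smooth _ z₀ fun i j k l => ?_
  refine ContDiffAt.mul (ContDiffAt.mul (hgi i k) (hgi j l)) ?_
  exact (hsf i j).inner ℝ (hsf k l)


theorem zsq_smooth {n N : ℕ} (f : EE n × ℝ → EE N) (z₀ : EE n × ℝ)
    (hgi : ∀ i j, ContDiffAt ℝ ∞ (fun z => (gram (fun y => f (y, z.2)) z.1)⁻¹ i j) z₀)
    (hsf : ∀ i j, ContDiffAt ℝ ∞ (fun z => sff (fun y => f (y, z.2)) z.1 i j) z₀) :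
    ContDiffAt ℝ ∞ (fun z => zsq (fun y => f (y, z.2)) z.1) z₀ := by
  have hmc := mcv_smooth f z₀ hgi hsf
  unfold zsq
  refine quad_smooth _ z₀ fun i j k l => ?_
  refine ContDiffAt.mul (ContDiffAt.mul (hgi i k) (hgi j l)) (ContDiffAt.mul ?_ ?_)
  · exact (hsf i j).inner ℝ hmc
  · exact (hsf k l).inner ℝ hmc


theorem gram_smooth {n N : ℕ} (f : EE n × ℝ → EE N) (z₀ : EE n × ℝ)
    (h5 : ∀ᶠ z in 𝓝 z₀, ContDiffAt ℝ 5 f z)
    (hjg : ∀ i, ContDiffAt ℝ ∞ (fun z => jg f z i) z₀) (i j : Fin n) :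
    ContDiffAt ℝ ∞ (fun z => gram (fun y => f (y, z.2)) z.1 i j) z₀ := by
  have hge : (fun z => gram (fun y => f (y, z.2)) z.1 i j) =ᶠ[𝓝 z₀]
      fun z => inner ℝ (jg f z i) (jg f z j) := by
    filter_upwards [h5] with z hz
    unfold gram
    rw [Matrix.of_apply, dv1_eq f z hz, dv1_eq f z hz]
  exact ((hjg i).inner ℝ (hjg j)).congr_of_eventuallyEq hge

theorem ev_det1 {n N : ℕ} (f : EE n × ℝ → EE N) (z₀ : EE n × ℝ)
    (hg : ∀ i j, ContDiffAt ℝ ∞ (fun z => gram (fun y => f (y, z.2)) z.1 i j) z₀) :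
    ContDiffAt ℝ ∞ (fun z => (gram (fun y => f (y, z.2)) z.1).det) z₀ := by
  have := det_smooth (fun z : EE n × ℝ => gram (fun y => f (y, z.2)) z.1) z₀ hg
  exact this

theorem ev_det {n N : ℕ} (f : EE n × ℝ → EE N) (z₀ : EE n × ℝ)
    (hg : ∀ i j, ContDiffAt ℝ ∞ (fun z => gram (fun y => f (y, z.2)) z.1 i j) z₀)
    (hdet0 : (gram (fun y => f (y, z₀.2)) z₀.1).det ≠ 0) :
    ∀ᶠ z in 𝓝 z₀, (gram (fun y => f (y, z.2)) z.1).det ≠ 0 := by
  have h := (ev_det1 f z₀ hg).continuousAt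
  exact h.eventually_ne hdet0

theorem ginv_smooth {n N : ℕ} (f : EE n × ℝ → EE N) (z₀ : EE n × ℝ)
    (hg : ∀ i j, ContDiffAt ℝ ∞ (fun z => gram (fun y => f (y, z.2)) z.1 i j) z₀)
    (hdet0 : (gram (fun y => f (y, z₀.2)) z₀.1).det ≠ 0) (i j : Fin n) :
    ContDiffAt ℝ ∞ (fun z => (gram (fun y => f (y, z.2)) z.1)⁻¹ i j) z₀ := by
  have := inv_smooth (fun z : EE n × ℝ => gram (fun y => f (y, z.2)) z.1) z₀ hg hdet0 i j
  exact this


theorem ev_all {n N : ℕ} (f : EE n × ℝ → EE N) (z₀ : EE n × ℝ)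
    (h5 : ∀ᶠ z in 𝓝 z₀, ContDiffAt ℝ 5 f z)
    (hdet : ∀ᶠ z in 𝓝 z₀, (gram (fun y => f (y, z.2)) z.1).det ≠ 0) :
    ∀ᶠ z in 𝓝 z₀, LI (fun y => f (y, z.2)) z.1 ∧ ContDiffAt ℝ 5 f z ∧
      (∀ i, dv1 (fun y => f (y, z.2)) z.1 i = jg f z i) ∧
      (∀ i j, dv2 (fun y => f (y, z.2)) z.1 i j = jgg f z i j) ∧
      (∀ i j, jgg f z i j = jgg f z j i) := by
  filter_upwards [h5, h5.eventually_nhds, hdet] with z hz hz2 hzd
  exact ⟨(li_iff _ _).2 hzd, hz, fun i => dv1_eq f z hz i, fun i j => dv2_eq f z hz2 i j,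
    fun i j => jgg_symm f z hz i j⟩


theorem hSM : StSM := by
  intro n N f z₀ hf hLI
  have hjg : ∀ i, ContDiffAt ℝ ∞ (fun z => jg f z i) z₀ := fun i => jg_smooth f z₀ hf i
  have hjt : ContDiffAt ℝ ∞ (jt f) z₀ := jt_smooth f z₀ hf
  have hjgg : ∀ i j, ContDiffAt ℝ ∞ (fun z => jgg f z i j) z₀ := fun i j =>
    jg_smooth (fun z' => jg f z' j) z₀ (hjg j) i
  have h5 : ∀ᶠ z in 𝓝 z₀, ContDiffAt ℝ 5 f z := (hf.of_le five_le).eventually (by simp)
  have hg := gram_smooth f z₀ h5 hjg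
  have hdet0 : (gram (fun y => f (y, z₀.2)) z₀.1).det ≠ 0 := (li_iff _ _).1 hLI
  have hgi := ginv_smooth f z₀ hg hdet0
  have hsf := sff_smooth f z₀ h5 hjg hjgg hgi
  exact ⟨ev_all f z₀ h5 (ev_det f z₀ hg hdet0), hjg, hjt, hjgg, hg, hgi, hsf,
    mcv_smooth f z₀ hgi hsf, nsq_smooth f z₀ hgi hsf, zsq_smooth f z₀ hgi hsf⟩

end Helper48.PI
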